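import Pool.Agent.R551.VP.Main

/-!
# Adaptive vantage points: with `β = 1` linearly many vantage points are needed

The definitions used in the statement are in `Pool/Agent/R551/VP/Defs.lean`:

* `Admissible G len`: the edge lengths are positive, and any two vertices in the same component are
  joined by a unique shortest path;
* `answer G len c s`: what is learned at the vantage point `s`, for every `t` the bottleneck edge of
  `P(s, t)` and its capacity;
* `Algorithm V`: deterministic adaptive algorithms, which map the history (the vantage points chosen
  so far and the answers) to the next vantage point, or stop;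
* `EndsWith A G len c S`: for the capacities `c` the algorithm `A` stops and has chosen exactly the
  vantage points in `S`;
* `RevealsOpt G len c k S`: `|R(S)| ≥ OPT(G, c, k)`.

Idea of the proof. Take a graph with degrees at most three, nearly all equal to three, and without
cycles of length at most `2 M`. The adversary gives the edges at the vantage points small
capacities, in the order in which the vantage points are chosen; then `m` vantage points reveal only
the at most `3 m` edges at these vantage points. As long as `4 m + 4 k M` is smaller than `n`
(up to a constant), counting of edges gives `k` disjoint paths with `M` vertices that avoid the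
vantage points. They are shortest paths, and if the capacities decrease along these paths then
their `k` initial vertices reveal `k (M - 1)` edges. So `3 m ≥ k (M - 1)`, for `n = 6 M k`.
-/

set_option autoImplicit false

namespace Pool.Agent.Results.MP_617207_lc.LinearlyManyVantagePoints

open Pool.Agent.R551.VP

/-- Let `M ≥ 2` and `k ≥ 5 * 16 ^ M`. There is a graph with `n = 6 M k` vertices (so that
`n / k = 6 M`), with maximum degree at most three, and there are edge lengths with unique shortest
paths, such that every deterministic adaptive algorithm that reveals at least `OPT(G, c, k)`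
capacities for all positive and pairwise different capacities uses at least `n / 36` vantage points
for some capacities (which are positive and pairwise different). -/
theorem result (M k : ℕ) (hM : 2 ≤ M) (hk : 5 * 16 ^ M ≤ k) :
    ∃ (G : SimpleGraph (Fin (6 * M * k))) (len : Sym2 (Fin (6 * M * k)) → ℝ),
      (∀ v, (G.neighborSet v).ncard ≤ 3) ∧ Admissible G len ∧
      ∀ A : Algorithm (Fin (6 * M * k)),
        (∀ c : Sym2 (Fin (6 * M * k)) → ℝ, (∀ e, 0 < c e) → Function.Injective c →
          ∃ S, EndsWith A G len c S ∧ RevealsOpt G len c k S) →
        ∃ c : Sym2 (Fin (6 * M * k)) → ℝ, (∀ e, 0 < c e) ∧ Function.Injective c ∧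
          ∀ S, EndsWith A G len c S → ((6 * M * k : ℕ) : ℝ) / 36 ≤ S.card := by
  classical
  obtain ⟨G, h1, h2, h3⟩ := exists_graph (Fin (6 * M * k)) (2 * M) (by omega)
  have e16 : 4 ^ (2 * M) = 16 ^ M := by rw [pow_mul]; norm_num
  rw [e16] at h3
  have hpos : 0 < 16 ^ M := by positivity
  have hMk : 2 * k ≤ M * k := Nat.mul_le_mul_right _ hM
  have hkM : k * M = M * k := mul_comm _ _
  have e6 : 6 * M * k = 6 * (M * k) := mul_assoc _ _ _
  have hkM1 : k * (M - 1) + k = M * k := by
    obtain ⟨a, rfl⟩ : ∃ a, M = a + 1 := ⟨M - 1, by omega⟩
    simp only [Nat.add_sub_cancel]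
    ring
  refine ⟨G, len₀ _, fun v => ?_, admissible_len₀ G, fun A hA => ?_⟩
  · refine le_trans (le_of_eq ?_) (h1 v)
    rw [Set.ncard_eq_toFinset_card', SimpleGraph.degree, SimpleGraph.neighborFinset_def]
  · obtain ⟨c, hc1, hc2, hc3⟩ := lower_bound G h1 (16 ^ M) (2 * M) M k ((k * (M - 1) - 1) / 3) h3 h2
      le_rfl (by omega) (by rw [Fintype.card_fin]; omega)
      (by rw [Fintype.card_fin, hkM, mul_assoc]; omega) (by omega) A hA
    refine ⟨c, hc1, hc2, fun S hS => ?_⟩
    have h4 := hc3 S hS
    have h5 : 6 * M * k ≤ 36 * S.card := by
      omega
    rw [div_le_iff₀ (by norm_num)]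
    have h6 : ((6 * M * k : ℕ) : ℝ) ≤ ((36 * S.card : ℕ) : ℝ) := by exact_mod_cast h5
    push_cast at h6 ⊢
    linarith

end Pool.Agent.Results.MP_617207_lc.LinearlyManyVantagePoints
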